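import Mathlib

set_option autoImplicit false

namespace Pool.Agent.Results.MP_81a4f1_co.Counterexample

/-- The local independence number `l(v)`: the independence number of the subgraph of `G`
induced on the open neighbourhood of `v`. -/
noncomputable def localIndep {V : Type} (G : SimpleGraph V) (v : V) : ℕ :=
  (G.induce (G.neighborSet v)).indepNum

/-- The frequency of the largest local independence number: the number of vertices `v` with
`l(v) = max_u l(u)`. -/
noncomputable def freqMax {V : Type} [Fintype V] (G : SimpleGraph V) : ℕ :=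
  Set.ncard {v : V | localIndep G v = Finset.univ.sup (localIndep G)}

/-- Adjacency (one direction) of the example graph on 16 vertices. -/
def lowAdj (a b : Fin 16) : Bool :=
  (a.val < b.val) &&
    ((b.val == 2) || ((a.val == 2) && b.val != 4 && b.val != 5) ||
      (3 ≤ a.val && 6 ≤ b.val))

/-- Adjacency of the example graph. Vertices `0, 1` are leaves attached to `2`; the vertices
`3, ..., 15` form a clique minus the triangle on `3, 4, 5`; and `2` is adjacent to all of
`3, ..., 15` except `4` and `5`. -/
def adjB (a b : Fin 16) : Bool := lowAdj a b || lowAdj b a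

/-- The example graph. -/
def ex : SimpleGraph (Fin 16) where
  Adj a b := adjB a b = true
  symm := ⟨fun a b h => by
    have : adjB b a = adjB a b := Bool.or_comm _ _
    rw [this]; exact h⟩
  loopless := ⟨fun a h => by
    simp [adjB, lowAdj] at h⟩

instance : DecidableRel ex.Adj := fun a b => inferInstanceAs (Decidable (adjB a b = true))

/-- A colouring of the neighbourhood of `v` by three cliques. -/
def col (v a : Fin 16) : Fin 3 :=
  if v.val = 2 then (if a.val = 0 then 0 else if a.val = 1 then 1 else 2)
  else (if a.val = 4 then 0 else if a.val = 5 then 1 else 2)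

theorem col_spec : ∀ v a b : Fin 16, ex.Adj v a → ex.Adj v b → a ≠ b → col v a = col v b →
    ex.Adj a b := by
  decide +kernel

theorem localIndep_le (v : Fin 16) : localIndep ex v ≤ 3 := by
  classical
  unfold localIndep
  obtain ⟨s, hs⟩ := (ex.induce (ex.neighborSet v)).exists_isNIndepSet_indepNum
  rw [← hs.card_eq]
  have hinj : Set.InjOn (fun a : ex.neighborSet v => col v a.1) (s : Set (ex.neighborSet v)) := by
    intro a ha b hb hab
    by_contra hne
    have h1 := hs.isIndepSet ha hb hne
    apply h1
    have hne' : a.1 ≠ b.1 := fun h => hne (Subtype.ext h)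
    exact col_spec v a.1 b.1 a.2 b.2 hne' hab
  have := Finset.card_le_card_of_injOn (t := Finset.univ) _ (fun a _ => Finset.mem_univ _) hinj
  simpa using this

/-- Three pairwise non-adjacent neighbours give a lower bound. -/
theorem le_localIndep {V : Type} [Finite V] (G : SimpleGraph V) (v a b c : V)
    (ha : G.Adj v a) (hb : G.Adj v b) (hc : G.Adj v c) (hab : a ≠ b) (hac : a ≠ c)
    (hbc : b ≠ c) (nab : ¬ G.Adj a b) (nac : ¬ G.Adj a c) (nbc : ¬ G.Adj b c) :
    3 ≤ localIndep G v := by
  classical
  let s : Finset (G.neighborSet v) := {⟨a, ha⟩, ⟨b, hb⟩, ⟨c, hc⟩}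
  have hcard : s.card = 3 := by
    have h1 : (⟨a, ha⟩ : G.neighborSet v) ≠ ⟨b, hb⟩ := fun h => hab (congrArg Subtype.val h)
    have h2 : (⟨a, ha⟩ : G.neighborSet v) ≠ ⟨c, hc⟩ := fun h => hac (congrArg Subtype.val h)
    have h3 : (⟨b, hb⟩ : G.neighborSet v) ≠ ⟨c, hc⟩ := fun h => hbc (congrArg Subtype.val h)
    exact Finset.card_eq_three.2 ⟨_, _, _, h1, h2, h3, rfl⟩
  rw [← hcard]
  apply SimpleGraph.IsIndepSet.card_le_indepNum
  intro x hx y hy hxy hadj
  have nba : ¬ G.Adj b a := fun h => nab h.symm
  have nca : ¬ G.Adj c a := fun h => nac h.symm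
  have ncb : ¬ G.Adj c b := fun h => nbc h.symm
  simp only [s, Finset.coe_insert, Finset.coe_singleton, Set.mem_insert_iff,
    Set.mem_singleton_iff] at hx hy
  rcases hx with rfl | rfl | rfl <;> rcases hy with rfl | rfl | rfl <;>
    first
      | exact hxy rfl
      | exact nab hadj
      | exact nac hadj
      | exact nbc hadj
      | exact nba hadj
      | exact nca hadj
      | exact ncb hadj

theorem localIndep_two : localIndep ex 2 = 3 := by
  apply le_antisymm (localIndep_le 2)
  apply le_localIndep ex 2 0 1 3 <;> decide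

theorem localIndep_high (v : Fin 16) (hv : 6 ≤ v.val) : localIndep ex v = 3 := by
  apply le_antisymm (localIndep_le v)
  have h : ∀ v : Fin 16, 6 ≤ v.val → ex.Adj v 3 ∧ ex.Adj v 4 ∧ ex.Adj v 5 := by decide
  apply le_localIndep ex v 3 4 5 (h v hv).1 (h v hv).2.1 (h v hv).2.2 <;> decide

theorem sup_eq : Finset.univ.sup (localIndep ex) = 3 := by
  apply le_antisymm
  · exact Finset.sup_le fun v _ => localIndep_le v
  · rw [← localIndep_two]
    exact Finset.le_sup (f := localIndep ex) (Finset.mem_univ 2)

theorem freq_ge : 11 ≤ freqMax ex := by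
  classical
  unfold freqMax
  rw [sup_eq]
  have hsub : ((Finset.univ.filter fun v : Fin 16 => v.val = 2 ∨ 6 ≤ v.val : Finset (Fin 16)) :
      Set (Fin 16)) ⊆ {v : Fin 16 | localIndep ex v = 3} := by
    intro v hv
    simp only [Finset.coe_filter, Finset.mem_univ, true_and, Set.mem_setOf_eq] at hv
    rcases hv with h | h
    · have : v = 2 := Fin.ext h
      subst this
      exact localIndep_two
    · exact localIndep_high v h
  have := Set.ncard_le_ncard hsub (Set.toFinite _)
  rw [Set.ncard_coe_finset] at this
  have hc : (Finset.univ.filter fun v : Fin 16 => v.val = 2 ∨ 6 ≤ v.val).card = 11 := by decide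
  omega

theorem compl_edges : exᶜ.edgeSet.ncard = 32 := by
  classical
  have h1 : exᶜ.edgeSet.ncard = exᶜ.edgeFinset.card := by
    rw [← SimpleGraph.coe_edgeFinset, Set.ncard_coe_finset]
  have h2 := exᶜ.sum_degrees_eq_twice_card_edges
  have h3 : ∑ v, exᶜ.degree v = 64 := by
    simp only [SimpleGraph.degree, SimpleGraph.neighborFinset_eq_filter]
    decide +kernel
  rw [h1]
  omega

theorem connected : ex.Connected := by
  have h2 : ∀ v : Fin 16, ex.Reachable v 2 := by
    have key : ∀ v : Fin 16, v = 2 ∨ ex.Adj v 2 ∨ (ex.Adj v 6 ∧ ex.Adj 6 2) := by decide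
    intro v
    rcases key v with h | h | ⟨h, h'⟩
    · subst h; exact SimpleGraph.Reachable.refl _
    · exact h.reachable
    · exact h.reachable.trans h'.reachable
  haveI : Nonempty (Fin 16) := ⟨0⟩
  exact ⟨fun u v => (h2 u).trans (h2 v).symm⟩

/-- In a chain avoiding `s`, a colouring constant along edges not meeting `s` is constant. -/
theorem chain_const {V : Type} (G : SimpleGraph V) (s : V) {C : Type} (c : V → C)
    (hc : ∀ a b, G.Adj a b → a ≠ s → b ≠ s → c a = c b) :
    ∀ L : List V, L.IsChain G.Adj → s ∉ L → ∀ x ∈ L, ∀ y ∈ L, c x = c y := by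
  intro L
  induction L with
  | nil => intro _ _ x hx; simp at hx
  | cons a L ih =>
    intro hch hs
    cases L with
    | nil =>
      intro x hx y hy
      simp only [List.mem_singleton] at hx hy
      rw [hx, hy]
    | cons b L =>
      have hch' := List.isChain_cons_cons.1 hch
      have hs' : s ∉ b :: L := fun h => hs (List.mem_cons_of_mem _ h)
      have ih' := ih hch'.2 hs'
      have hab : c a = c b := hc a b hch'.1 (fun h => hs (h ▸ List.mem_cons_self))
        (fun h => hs' (h ▸ List.mem_cons_self))
      have hb : ∀ x ∈ a :: b :: L, c x = c b := by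
        intro x hx
        rcases List.mem_cons.1 hx with h | h
        · rw [h, hab]
        · exact ih' x h b List.mem_cons_self
      intro x hx y hy
      rw [hb x hx, hb y hy]

/-- If deleting `s` leaves three vertices in different components, there is no Hamiltonian
path. -/
theorem no_hamiltonian {V : Type} [DecidableEq V] (G : SimpleGraph V) (s x y z : V)
    {C : Type} (c : V → C)
    (hc : ∀ a b, G.Adj a b → a ≠ s → b ≠ s → c a = c b) (hx : x ≠ s) (hy : y ≠ s) (hz : z ≠ s)
    (hxy : c x ≠ c y) (hxz : c x ≠ c z) (hyz : c y ≠ c z) {u v : V} (p : G.Walk u v) :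
    ¬ p.IsHamiltonian := by
  intro hp
  have hmem : s ∈ p.support := hp.mem_support s
  obtain ⟨L1, L2, hL⟩ := List.append_of_mem hmem
  have hnd : p.support.Nodup := hp.isPath.support_nodup
  have hch : p.support.IsChain G.Adj := p.isChain_adj_support
  rw [hL] at hnd hch
  have hs1 : s ∉ L1 := by
    intro h
    exact (List.nodup_append.1 hnd).2.2 s h s List.mem_cons_self rfl
  have hs2 : s ∉ L2 := by
    have := (List.nodup_append.1 hnd).2.1
    exact (List.nodup_cons.1 this).1
  have hch1 : L1.IsChain G.Adj := (List.isChain_append.1 hch).1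
  have hch2 : L2.IsChain G.Adj := ((List.isChain_append.1 hch).2.1).of_cons
  have hL' : ∀ w, w ≠ s → w ∈ L1 ∨ w ∈ L2 := by
    intro w hw
    have := hp.mem_support w
    rw [hL] at this
    rcases List.mem_append.1 this with h | h
    · exact Or.inl h
    · rcases List.mem_cons.1 h with h | h
      · exact absurd h hw
      · exact Or.inr h
  have k1 := chain_const G s c hc L1 hch1 hs1
  have k2 := chain_const G s c hc L2 hch2 hs2
  rcases hL' x hx with h1 | h1 <;> rcases hL' y hy with h2 | h2 <;>
    rcases hL' z hz with h3 | h3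
  · exact hxy (k1 x h1 y h2)
  · exact hxy (k1 x h1 y h2)
  · exact hxz (k1 x h1 z h3)
  · exact hyz (k2 y h2 z h3)
  · exact hyz (k1 y h2 z h3)
  · exact hxz (k2 x h1 z h3)
  · exact hxy (k2 x h1 y h2)
  · exact hxy (k2 x h1 y h2)

theorem no_path {u v : Fin 16} (p : ex.Walk u v) : ¬ p.IsHamiltonian := by
  apply no_hamiltonian ex 2 0 1 3 (fun a : Fin 16 => if a.val < 2 then a.val else 2) <;> decide

/-- There is a connected simple graph `G` on 16 vertices with
`(1 + 2 |E(Gᶜ)|) / 6 ≤ f(G)`, where `f(G)` is the frequency of the largest local independence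
number, that has no Hamiltonian path. -/
theorem result : ∃ G : SimpleGraph (Fin 16), G.Connected ∧
    (1 / 6 : ℚ) * (1 + 2 * (Gᶜ.edgeSet.ncard : ℚ)) ≤ (freqMax G : ℚ) ∧
    ¬ ∃ (u v : Fin 16) (p : G.Walk u v), p.IsHamiltonian := by
  refine ⟨ex, connected, ?_, ?_⟩
  · rw [compl_edges]
    have h : (11 : ℚ) ≤ (freqMax ex : ℚ) := by exact_mod_cast freq_ge
    norm_num
    linarith
  · rintro ⟨u, v, p, hp⟩
    exact no_path p hp

end Pool.Agent.Results.MP_81a4f1_co.Counterexample
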